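import Pool.Agent.Y246.LD.Dec

/-! LDD (job 1694, helper246 for helper826): final assembly -/

set_option autoImplicit false

open Finset Filter

namespace Pool.Agent.Y246.LD

open Pool.Agent.Y826.Z (Pr tau GoodT)
open Pool.Agent.Y826.ZL (Cd)
open Pool.Agent.Y826.LD

/-- the form of `S_PI` for any finite set of tuples -/
theorem pi_set (hP : S_PI) {K : ℕ} {h : Fin K → ℤ × ℤ}
    (hh : ∀ j, (h j).1 ≠ 0 ∧ (h j).2 ≠ 0 ∧ IsCoprime (h j).1 (h j).2) {t : Fin K → ℝ}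
    (ht0 : ∀ j, 0 ≤ t j) (ht : ∑ j, t j ≤ 53 / 100) (hg : ∃ δ : ℝ, 0 < δ ∧ GoodT δ t) (A C : ℕ) :
    ∀ᶠ X : ℝ in atTop, ∀ (Y : (Fin K → ℕ) → ℝ) (l : (Fin K → ℕ) → ℕ) (S : Finset (Fin K → ℕ)),
      (∀ q ∈ S, (∀ j, 1 ≤ q j ∧ (q j : ℝ) ≤ X ^ (t j)) ∧ Squarefree (Pr q) ∧ 2 ≤ Y q ∧ Y q ≤ X ∧
        (l q).Coprime (Pr q) ∧ Cd h q (l q)) →
      ∑ q ∈ S, tau (Pr q) ^ C * |E (Y q) (Pr q) (l q)| ≤ X / (Real.log X) ^ A := by
  filter_upwards [hP K h hh t ht0 ht hg A C] with X hX Y l S hS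
  refine le_trans (Finset.sum_le_sum_of_subset_of_nonneg ?_ ?_) (hX Y l)
  · intro q hq
    obtain ⟨h1, h2, h3, h4, h5, h6⟩ := hS q hq
    classical
    simp only [Finset.mem_filter]
    refine ⟨Fintype.mem_piFinset.2 fun j => Finset.mem_Icc.2 ⟨(h1 j).1, ?_⟩,
      h2, h3, h4, h5, h6⟩
    exact Nat.le_floor (h1 j).2
  · intro q _ _
    refine mul_nonneg (pow_nonneg ?_ _) (abs_nonneg _)
    unfold tau
    exact Nat.cast_nonneg _

theorem li_bd {y : ℝ} (hy : 2 ≤ y) : |li y| ≤ 2 * y := by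
  unfold li
  have h1 : ‖∫ t in (2 : ℝ)..y, 1 / Real.log t‖ ≤ 2 * |y - 2| := by
    refine intervalIntegral.norm_integral_le_of_norm_le_const fun t ht => ?_
    rw [Set.uIoc_of_le hy] at ht
    have h2 : Real.log 2 ≤ Real.log t := Real.log_le_log (by norm_num) ht.1.le
    have h3 := Real.log_two_gt_d9
    rw [Real.norm_eq_abs, abs_of_nonneg (div_nonneg zero_le_one (by linarith))]
    rw [div_le_iff₀ (by linarith)]
    linarith
  rw [Real.norm_eq_abs, abs_of_nonneg (show 0 ≤ y - 2 by linarith)] at h1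
  linarith

theorem E_bd {y : ℝ} (hy : 2 ≤ y) {d l : ℕ} (hd : 0 < d) : |E y d l| ≤ 3 * y := by
  unfold E
  have h1 : (primesAP y d l : ℝ) ≤ y := by
    unfold primesAP
    have h2 := Finset.card_filter_le (Icc 1 ⌊y⌋₊) (fun p => p.Prime ∧ p ≡ l [MOD d])
    rw [Nat.card_Icc, Nat.add_sub_cancel] at h2
    have h3 : (⌊y⌋₊ : ℝ) ≤ y := Nat.floor_le (by linarith)
    refine le_trans ?_ h3
    exact_mod_cast h2
  have h2 : |li y / (Nat.totient d : ℝ)| ≤ 2 * y := by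
    rw [abs_div]
    have h3 : (1 : ℝ) ≤ |(Nat.totient d : ℝ)| := by
      rw [abs_of_nonneg (Nat.cast_nonneg _)]
      exact_mod_cast Nat.totient_pos.2 hd
    exact (div_le_self (abs_nonneg _) h3).trans (li_bd hy)
  have h3 := abs_sub (primesAP y d l : ℝ) (li y / (Nat.totient d : ℝ))
  rw [abs_of_nonneg (show (0 : ℝ) ≤ (primesAP y d l : ℝ) from Nat.cast_nonneg _)] at h3
  linarith

/-- the divisor function of a squarefree number -/
theorem tau_ge {d : ℕ} (hd : d ≠ 0) (κ : ℕ) : (κ : ℝ) ^ d.primeFactors.card ≤ tau d ^ κ := by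
  have h1 : 2 ^ d.primeFactors.card ≤ d.divisors.card := by
    rw [Nat.card_divisors hd, ← Finset.prod_const]
    refine Finset.prod_le_prod' fun p hp => ?_
    have : 0 < d.factorization p :=
      (Nat.prime_of_mem_primeFactors hp).factorization_pos_of_dvd hd
        (Nat.dvd_of_mem_primeFactors hp)
    omega
  have h2 : κ ^ d.primeFactors.card ≤ d.divisors.card ^ κ := by
    calc κ ^ d.primeFactors.card ≤ (2 ^ κ) ^ d.primeFactors.card :=
          Nat.pow_le_pow_left (Nat.lt_two_pow_self).le _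
      _ = (2 ^ d.primeFactors.card) ^ κ := by rw [← pow_mul, ← pow_mul, mul_comm]
      _ ≤ _ := Nat.pow_le_pow_left h1 _
  unfold tau
  exact_mod_cast h2

/-- the sizes of a tuple in the logarithmic scale -/
theorem shape {K : ℕ} {x ρ : ℝ} (hx : 1 < x) (hρ : 0 < ρ) (q : Fin K → ℕ) (hq : ∀ j, 1 ≤ q j) :
    ∃ e : Fin K → ℕ, (∀ j, (q j : ℝ) ≤ x ^ (ρ * e j)) ∧
      ∀ S : Finset (Fin K), (∑ j ∈ S, ρ * e j) * Real.log x ≤
        Real.log ((∏ j ∈ S, q j : ℕ) : ℝ) + S.card * ρ * Real.log x := by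
  have hlx : 0 < Real.log x := Real.log_pos hx
  have hx0 : 0 < x := by linarith
  have hqpos : ∀ j, (0 : ℝ) < q j := fun j => by
    exact_mod_cast lt_of_lt_of_le Nat.zero_lt_one (hq j)
  have hq1 : ∀ j, (1 : ℝ) ≤ q j := fun j => by exact_mod_cast hq j
  refine ⟨fun j => ⌈Real.log (q j) / (ρ * Real.log x)⌉₊, fun j => ?_, fun S => ?_⟩
  · have h1 := Nat.le_ceil (Real.log (q j) / (ρ * Real.log x))
    rw [div_le_iff₀ (by positivity)] at h1
    rw [Real.rpow_def_of_pos hx0]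
    calc (q j : ℝ) = Real.exp (Real.log (q j)) := (Real.exp_log (hqpos j)).symm
      _ ≤ _ := by
        rw [Real.exp_le_exp]
        linarith
  · rw [Nat.cast_prod, Real.log_prod (fun j _ => (hqpos j).ne'), Finset.sum_mul]
    have h1 : ∀ j ∈ S, ρ * (⌈Real.log (q j) / (ρ * Real.log x)⌉₊ : ℝ) * Real.log x ≤
        Real.log (q j) + ρ * Real.log x := by
      intro j _
      have h2 := Nat.ceil_lt_add_one (a := Real.log (q j) / (ρ * Real.log x))
        (div_nonneg (Real.log_nonneg (hq1 j)) (by positivity))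
      have h3 : (ρ * Real.log x) * (⌈Real.log (q j) / (ρ * Real.log x)⌉₊ : ℝ) ≤
          (ρ * Real.log x) * (Real.log (q j) / (ρ * Real.log x) + 1) :=
        mul_le_mul_of_nonneg_left h2.le (by positivity)
      have h4 : (ρ * Real.log x) * (Real.log (q j) / (ρ * Real.log x) + 1) =
          Real.log (q j) + ρ * Real.log x := by
        field_simp
      linarith
    refine (Finset.sum_le_sum h1).trans ?_
    rw [Finset.sum_add_distrib, Finset.sum_const, nsmul_eq_mul]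
    linarith

/-- one modulus -/
theorem one_mod {K : ℕ} {G : Finset (Fin K)} {x ρ ε γ η : ℝ} (hx : 1 < x) (hρ : 0 < ρ)
    (hηdef : η = γ / 4) (hρ1 : ρ ≤ γ / 2) (hρ2 : K * ρ ≤ ε / 2) (hε : 0 < ε)
    (q : Fin K → ℕ) (hq : ∀ j, 1 ≤ q j) (h1 : ((∏ j, q j : ℕ) : ℝ) ≤ x ^ (43 / 84 - ε))
    (h2 : ((∏ j ∈ G, q j : ℕ) : ℝ) ≤ x ^ (1 / 3 - ε)) (h3 : ∀ j ∉ G, (q j : ℝ) ≤ (x ^ η) ^ 2) :
    ∃ e ∈ Fintype.piFinset (fun _ : Fin K => Finset.range (⌊1 / ρ⌋₊ + 1)),
      (∀ j, (q j : ℝ) ≤ x ^ (ρ * e j)) ∧ (∀ j ∉ G, ρ * e j ≤ γ) ∧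
      ∑ j ∈ G, ρ * (e j : ℝ) ≤ 1 / 3 - ε / 2 ∧ ∑ j, ρ * (e j : ℝ) ≤ 43 / 84 - ε / 2 := by
  have hlx : 0 < Real.log x := Real.log_pos hx
  have hx0 : 0 < x := by linarith
  have hpp : ∀ S : Finset (Fin K), (0 : ℝ) < ((∏ j ∈ S, q j : ℕ) : ℝ) := fun S => by
    exact_mod_cast Finset.prod_pos fun j _ => hq j
  obtain ⟨e, he1, he2⟩ := shape hx hρ q hq
  have key : ∀ (S : Finset (Fin K)) (a : ℝ), ((∏ j ∈ S, q j : ℕ) : ℝ) ≤ x ^ a →
      ∑ j ∈ S, ρ * (e j : ℝ) ≤ a + K * ρ := by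
    intro S a hS
    have h4 := he2 S
    have h5 := Real.log_le_log (hpp S) hS
    rw [Real.log_rpow hx0] at h5
    have h7 : (S.card : ℝ) ≤ K := by
      have := Finset.card_le_univ S
      rw [Fintype.card_fin] at this
      exact_mod_cast this
    have h8 : (S.card : ℝ) * (ρ * Real.log x) ≤ K * (ρ * Real.log x) :=
      mul_le_mul_of_nonneg_right h7 (by positivity)
    have h6 : (∑ j ∈ S, ρ * (e j : ℝ)) * Real.log x ≤ (a + K * ρ) * Real.log x := by linarith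
    exact le_of_mul_le_mul_right h6 hlx
  have k1 := key Finset.univ _ h1
  have k2 := key G _ h2
  have hterm : ∀ j, (0 : ℝ) ≤ ρ * e j := fun j => mul_nonneg hρ.le (Nat.cast_nonneg _)
  refine ⟨e, ?_, he1, ?_, by linarith, by linarith⟩
  · refine Fintype.mem_piFinset.2 fun j => Finset.mem_range.2 (Nat.lt_succ_of_le ?_)
    refine Nat.le_floor ?_
    rw [le_div_iff₀ hρ]
    have h4 := Finset.single_le_sum (f := fun j => ρ * (e j : ℝ)) (fun j _ => hterm j)
      (Finset.mem_univ j)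
    linarith
  · intro j hj
    have h4 := he2 {j}
    simp only [Finset.sum_singleton, Finset.prod_singleton, Finset.card_singleton,
      Nat.cast_one, one_mul] at h4
    have h5 : Real.log (q j) ≤ 2 * η * Real.log x := by
      have h6 := Real.log_le_log (by exact_mod_cast hq j) (h3 j hj)
      rw [Real.log_pow, Real.log_rpow hx0] at h6
      push_cast at h6
      linarith
    have h7 : ρ * (e j : ℝ) * Real.log x ≤ (2 * η + ρ) * Real.log x := by linarith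
    have h8 := le_of_mul_le_mul_right h7 hlx
    rw [hηdef] at h8
    linarith

theorem fin (hP : S_PI) (hG : S_GT) : S_FIN := by
  classical
  intro H hH ε hε
  obtain ⟨γ, hγ, hGT⟩ := hG (ε / 2) (half_pos hε)
  have hη : 0 < γ / 4 := by positivity
  obtain ⟨N, hN1⟩ : ∃ N : ℕ, 1 / (γ / 4) ≤ N := exists_nat_ge _
  have hN : 0 < N := by
    rcases Nat.eq_zero_or_pos N with h | h
    · rw [h, Nat.cast_zero] at hN1
      have : 0 < 1 / (γ / 4) := by positivity
      linarith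
    · exact h
  obtain ⟨K, h, G, hh, hdec⟩ := dec H N hN
  obtain ⟨ρ, hρ, hρ1, hρ2⟩ : ∃ ρ : ℝ, 0 < ρ ∧ ρ ≤ γ / 2 ∧ K * ρ ≤ ε / 2 := by
    refine ⟨min (γ / 2) (ε / (2 * (K + 1))), by positivity, min_le_left _ _, ?_⟩
    have h1 : (K : ℝ) * min (γ / 2) (ε / (2 * (K + 1))) ≤ (K + 1) * (ε / (2 * (K + 1))) :=
      mul_le_mul (by linarith) (min_le_right _ _) (by positivity) (by positivity)
    have h2 : ((K : ℝ) + 1) * (ε / (2 * (K + 1))) = ε / 2 := by
      field_simp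
    linarith
  refine ⟨γ / 4, hη, fun κ U => ?_⟩
  obtain ⟨shapes, hshapes⟩ : ∃ s : Finset (Fin K → ℕ),
      s = Fintype.piFinset (fun _ : Fin K => Finset.range (⌊1 / ρ⌋₊ + 1)) := ⟨_, rfl⟩
  -- large `x`
  have hev : ∀ᶠ x : ℝ in atTop, ∀ e ∈ shapes, (∀ j ∉ G, ρ * (e j : ℝ) ≤ γ) →
      ∑ j ∈ G, ρ * (e j : ℝ) ≤ 1 / 3 - ε / 2 → ∑ j, ρ * (e j : ℝ) ≤ 43 / 84 - ε / 2 →
      ∀ (Y : (Fin K → ℕ) → ℝ) (l : (Fin K → ℕ) → ℕ) (S : Finset (Fin K → ℕ)),
      (∀ q ∈ S, (∀ j, 1 ≤ q j ∧ (q j : ℝ) ≤ x ^ (ρ * (e j : ℝ))) ∧ Squarefree (Pr q) ∧ 2 ≤ Y q ∧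
        Y q ≤ x ∧ (l q).Coprime (Pr q) ∧ Cd h q (l q)) →
      ∑ q ∈ S, tau (Pr q) ^ κ * |E (Y q) (Pr q) (l q)| ≤ x / (Real.log x) ^ U := by
    rw [Filter.eventually_all_finset]
    intro e _
    by_cases hc : (∀ j ∉ G, ρ * (e j : ℝ) ≤ γ) ∧ ∑ j ∈ G, ρ * (e j : ℝ) ≤ 1 / 3 - ε / 2 ∧
        ∑ j, ρ * (e j : ℝ) ≤ 43 / 84 - ε / 2
    · obtain ⟨c1, c2, c3⟩ := hc
      have ht0 : ∀ j, 0 ≤ ρ * (e j : ℝ) := fun j => mul_nonneg hρ.le (Nat.cast_nonneg _)
      have hgt := hGT K (fun j => ρ * (e j : ℝ)) G ht0 c1 c2 c3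
      filter_upwards [pi_set hP (h := h) (fun j => hH _ (hh j)) ht0 (by linarith) hgt U κ]
        with x hx _ _ _
      exact hx
    · refine Filter.Eventually.of_forall fun x c1 c2 c3 => ?_
      exact absurd ⟨c1, c2, c3⟩ hc
  obtain ⟨x0, hx0⟩ := eventually_atTop.1 hev
  set x1 := max x0 3 with hx1
  have hx13 : 3 ≤ x1 := le_max_right _ _
  set B0 : ℝ := x1 * (((κ : ℝ) + 1) ^ ⌊x1⌋₊ * (3 * x1)) with hB0
  have hB00 : 0 ≤ B0 := by positivity
  have hlog1 : 0 < Real.log x1 := Real.log_pos (by linarith)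
  refine ⟨shapes.card + B0 * (Real.log x1) ^ U, fun x hx y l => ?_⟩
  have hlx : 0 < Real.log x := Real.log_pos (by linarith)
  have hxU : 0 < x / (Real.log x) ^ U := by positivity
  set D := (Icc 1 ⌊x ^ (43 / 84 - ε)⌋₊).filter (fun d => Squarefree d ∧
    (rough (x ^ (γ / 4)) d : ℝ) ≤ x ^ (1 / 3 - ε) ∧
    2 ≤ y d ∧ y d ≤ x ∧ (l d).Coprime d ∧ (d : ℤ) ∣ ∏ h ∈ H, (h.1 * (l d : ℤ) + h.2)) with hD
  have hDmem : ∀ d ∈ D, 1 ≤ d ∧ (d : ℝ) ≤ x ^ (43 / 84 - ε) ∧ Squarefree d ∧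
    (rough (x ^ (γ / 4)) d : ℝ) ≤ x ^ (1 / 3 - ε) ∧
    2 ≤ y d ∧ y d ≤ x ∧ (l d).Coprime d ∧ (d : ℤ) ∣ ∏ h ∈ H, (h.1 * (l d : ℤ) + h.2) := by
    intro d hd
    rw [hD, Finset.mem_filter, Finset.mem_Icc] at hd
    refine ⟨hd.1.1, ?_, hd.2⟩
    exact (Nat.cast_le.2 hd.1.2).trans (Nat.floor_le (Real.rpow_nonneg (by linarith) _))
  have hdx : ∀ d ∈ D, (d : ℝ) ≤ x := by
    intro d hd
    refine (hDmem d hd).2.1.trans ?_
    calc x ^ (43 / 84 - ε) ≤ x ^ (1 : ℝ) :=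
          Real.rpow_le_rpow_of_exponent_le (by linarith) (by linarith)
      _ = x := Real.rpow_one x
  have hgoal : ∑ d ∈ D, (κ : ℝ) ^ d.primeFactors.card * |E (y d) d (l d)| ≤
      (shapes.card + B0 * (Real.log x1) ^ U) * (x / (Real.log x) ^ U) := by
    by_cases hxx : x1 ≤ x
    · -- large `x`
      have key : ∀ d ∈ D, ∃ (q : Fin K → ℕ) (e : Fin K → ℕ), e ∈ shapes ∧ Pr q = d ∧
          (∀ j, 1 ≤ q j) ∧ Cd h q (l d) ∧ (∀ j, (q j : ℝ) ≤ x ^ (ρ * e j)) ∧
          (∀ j ∉ G, ρ * (e j : ℝ) ≤ γ) ∧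
          ∑ j ∈ G, ρ * (e j : ℝ) ≤ 1 / 3 - ε / 2 ∧ ∑ j, ρ * (e j : ℝ) ≤ 43 / 84 - ε / 2 := by
        intro d hd
        obtain ⟨d1, d2, d3, d4, d5, d6, d7, d8⟩ := hDmem d hd
        have hz : 1 ≤ x ^ (γ / 4) := Real.one_le_rpow (by linarith) hη.le
        obtain ⟨q, q1, q2, q3, q4, q5⟩ := hdec (x ^ (γ / 4)) d (l d) hz d3 (by
          refine (hdx d hd).trans ?_
          rw [← Real.rpow_natCast, ← Real.rpow_mul (by linarith)]
          calc x = x ^ (1 : ℝ) := (Real.rpow_one x).symm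
            _ ≤ _ := Real.rpow_le_rpow_of_exponent_le (by linarith) (by
              rw [div_le_iff₀ hη] at hN1
              linarith)) d8
        obtain ⟨e, e1, e2, e3, e4, e5⟩ := one_mod (K := K) (G := G) (x := x) (ρ := ρ) (ε := ε)
          (γ := γ) (η := γ / 4) (by linarith) hρ rfl hρ1 hρ2 hε q q2 (by
            have : ∏ j, q j = d := q1
            rw [this]
            exact d2) (q4.trans d4) q5
        exact ⟨q, e, hshapes ▸ e1, q1, q2, q3, e2, e3, e4, e5⟩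
      choose! q e hqe using key
      have hfib : ∑ d ∈ D, (κ : ℝ) ^ d.primeFactors.card * |E (y d) d (l d)| =
          ∑ s ∈ shapes, ∑ d ∈ D.filter (fun d => e d = s),
            (κ : ℝ) ^ d.primeFactors.card * |E (y d) d (l d)| :=
        (Finset.sum_fiberwise_of_maps_to (fun d hd => (hqe d hd).1) _).symm
      rw [hfib]
      have hone : ∀ s ∈ shapes, ∑ d ∈ D.filter (fun d => e d = s),
            (κ : ℝ) ^ d.primeFactors.card * |E (y d) d (l d)| ≤ x / (Real.log x) ^ U := by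
        intro s hs
        rcases (D.filter (fun d => e d = s)).eq_empty_or_nonempty with hemp | ⟨d0, hd0⟩
        · rw [hemp, Finset.sum_empty]
          exact hxU.le
        · obtain ⟨hd0D, hd0s⟩ := Finset.mem_filter.1 hd0
          obtain ⟨-, -, -, -, -, c1, c2, c3⟩ := hqe d0 hd0D
          rw [hd0s] at c1 c2 c3
          have h1 := hx0 x ((le_max_left _ _).trans hxx) s hs c1 c2 c3
            (fun q => y (Pr q)) (fun q => l (Pr q)) ((D.filter (fun d => e d = s)).image q) (by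
              intro q' hq'
              obtain ⟨d, hd, rfl⟩ := Finset.mem_image.1 hq'
              obtain ⟨hdD, hds⟩ := Finset.mem_filter.1 hd
              obtain ⟨-, q1, q2, q3, q4, -⟩ := hqe d hdD
              obtain ⟨d1, d2, d3, d4, d5, d6, d7, d8⟩ := hDmem d hdD
              rw [hds] at q4
              rw [q1]
              exact ⟨fun j => ⟨q2 j, q4 j⟩, d3, d5, d6, d7, q3⟩)
          rw [Finset.sum_image] at h1
          · refine le_trans (Finset.sum_le_sum fun d hd => ?_) h1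
            obtain ⟨hdD, hds⟩ := Finset.mem_filter.1 hd
            obtain ⟨-, q1, -⟩ := hqe d hdD
            obtain ⟨d1, -⟩ := hDmem d hdD
            rw [q1]
            exact mul_le_mul_of_nonneg_right (tau_ge (by omega) κ) (abs_nonneg _)
          · intro a ha b hb hab
            have ha' := (hqe a (Finset.mem_filter.1 ha).1).2.1
            have hb' := (hqe b (Finset.mem_filter.1 hb).1).2.1
            rw [← ha', ← hb']
            exact congrArg Pr hab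
      refine (Finset.sum_le_sum hone).trans ?_
      rw [Finset.sum_const, nsmul_eq_mul]
      refine mul_le_mul_of_nonneg_right ?_ hxU.le
      have : 0 ≤ B0 * (Real.log x1) ^ U := by positivity
      linarith
    · -- small `x`
      push Not at hxx
      have h1 : ∑ d ∈ D, (κ : ℝ) ^ d.primeFactors.card * |E (y d) d (l d)| ≤
          ∑ _d ∈ D, ((κ : ℝ) + 1) ^ ⌊x1⌋₊ * (3 * x1) := by
        refine Finset.sum_le_sum fun d hd => ?_
        obtain ⟨d1, d2, d3, d4, d5, d6, d7, d8⟩ := hDmem d hd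
        refine mul_le_mul ?_ ((E_bd d5 d1).trans (by linarith)) (abs_nonneg _) (by positivity)
        have h2 : d.primeFactors.card ≤ ⌊x1⌋₊ := by
          have h3 : d.primeFactors.card ≤ d := by
            have h4 : d.primeFactors ⊆ Icc 1 d := fun p hp => Finset.mem_Icc.2
              ⟨(Nat.prime_of_mem_primeFactors hp).one_le, Nat.le_of_mem_primeFactors hp⟩
            have h5 := Finset.card_le_card h4
            rwa [Nat.card_Icc, Nat.add_sub_cancel] at h5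
          refine h3.trans (Nat.le_floor ?_)
          have := hdx d hd
          linarith
        calc (κ : ℝ) ^ d.primeFactors.card ≤ ((κ : ℝ) + 1) ^ d.primeFactors.card :=
              pow_le_pow_left₀ (Nat.cast_nonneg _) (by linarith) _
          _ ≤ _ := pow_le_pow_right₀ (by linarith [(Nat.cast_nonneg κ : (0 : ℝ) ≤ κ)]) h2
      have h2 : (D.card : ℝ) ≤ x1 := by
        have h3 : D ⊆ Icc 1 ⌊x⌋₊ := fun d hd => Finset.mem_Icc.2
          ⟨(hDmem d hd).1, Nat.le_floor (hdx d hd)⟩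
        have h4 := Finset.card_le_card h3
        rw [Nat.card_Icc, Nat.add_sub_cancel] at h4
        have h5 : (⌊x⌋₊ : ℝ) ≤ x := Nat.floor_le (by linarith)
        have h6 : (D.card : ℝ) ≤ ⌊x⌋₊ := by exact_mod_cast h4
        linarith
      rw [Finset.sum_const, nsmul_eq_mul] at h1
      have h3 : (D.card : ℝ) * (((κ : ℝ) + 1) ^ ⌊x1⌋₊ * (3 * x1)) ≤ B0 :=
        mul_le_mul_of_nonneg_right h2 (by positivity)
      have h4 : (1 : ℝ) ≤ (Real.log x1) ^ U * (x / (Real.log x) ^ U) := by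
        have h5 : (Real.log x) ^ U ≤ (Real.log x1) ^ U :=
          pow_le_pow_left₀ hlx.le (Real.log_le_log (by linarith) hxx.le) _
        rw [mul_div_assoc', le_div_iff₀ (by positivity), one_mul]
        calc (Real.log x) ^ U ≤ (Real.log x1) ^ U := h5
          _ = (Real.log x1) ^ U * 1 := (mul_one _).symm
          _ ≤ (Real.log x1) ^ U * x := mul_le_mul_of_nonneg_left (by linarith) (by positivity)
      have h5 : B0 * 1 ≤ B0 * ((Real.log x1) ^ U * (x / (Real.log x) ^ U)) :=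
        mul_le_mul_of_nonneg_left h4 hB00
      have h6 : 0 ≤ (shapes.card : ℝ) * (x / (Real.log x) ^ U) :=
        mul_nonneg (Nat.cast_nonneg _) hxU.le
      calc _ ≤ B0 := h1.trans h3
        _ ≤ _ := by linarith
  rw [hD] at hgoal
  exact le_trans (le_of_eq (Finset.sum_congr (by congr) fun _ _ => rfl)) hgoal

end Pool.Agent.Y246.LD
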