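import Pool.Agent.Y826.LD.Defs

/-! LDD (job 1694, helper246 for helper826): decomposition of the moduli -/

set_option autoImplicit false

open Finset

namespace Pool.Agent.Y246.LD

open Pool.Agent.Y826.Z (Pr tau GoodT)
open Pool.Agent.Y826.ZL (Cd)
open Pool.Agent.Y826.LD

/-- bins -/
theorem bins {N : ℕ} {z : ℝ} (hz : 1 ≤ z) (P : Finset ℕ) (h1 : ∀ p ∈ P, 1 ≤ p)
    (h2 : ∀ p ∈ P, (p : ℝ) ≤ z) (h3 : ((∏ p ∈ P, p : ℕ) : ℝ) ≤ z ^ N) (hN : 0 < N) :
    ∃ f : ℕ → Fin N, ∀ c, ((∏ p ∈ P.filter (fun p => f p = c), p : ℕ) : ℝ) ≤ z ^ 2 := by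
  classical
  induction P using Finset.induction_on with
  | empty =>
    refine ⟨fun _ => ⟨0, hN⟩, fun c => ?_⟩
    simp only [Finset.filter_empty, Finset.prod_empty, Nat.cast_one]
    nlinarith
  | insert a P ha ih =>
    have hPle : ((∏ p ∈ P, p : ℕ) : ℝ) ≤ z ^ N := by
      refine le_trans ?_ h3
      rw [Finset.prod_insert ha]
      have := h1 a (Finset.mem_insert_self _ _)
      exact_mod_cast Nat.le_mul_of_pos_left _ this
    obtain ⟨f, hf⟩ := ih (fun p hp => h1 p (Finset.mem_insert_of_mem hp))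
      (fun p hp => h2 p (Finset.mem_insert_of_mem hp)) hPle
    obtain ⟨c0, hc0⟩ : ∃ c, ((∏ p ∈ P.filter (fun p => f p = c), p : ℕ) : ℝ) ≤ z := by
      by_contra hcon
      push Not at hcon
      have e1 : ∏ c : Fin N, ∏ p ∈ P.filter (fun p => f p = c), p = ∏ p ∈ P, p :=
        Finset.prod_fiberwise P f (fun p => p)
      have e2 : (z ^ N : ℝ) < ((∏ p ∈ P, p : ℕ) : ℝ) := by
        rw [← e1, Nat.cast_prod]
        have : (z ^ N : ℝ) = ∏ _c : Fin N, z := by
          rw [Finset.prod_const, Finset.card_univ, Fintype.card_fin]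
        rw [this]
        refine Finset.prod_lt_prod_of_nonempty (fun _ _ => by linarith) (fun c _ => hcon c)
          ⟨⟨0, hN⟩, Finset.mem_univ _⟩
      linarith
    refine ⟨Function.update f a c0, fun c => ?_⟩
    have hsame : ∀ c, P.filter (fun p => Function.update f a c0 p = c) =
        P.filter (fun p => f p = c) := by
      intro c
      refine Finset.filter_congr fun p hp => ?_
      rw [Function.update_of_ne (by rintro rfl; exact ha hp)]
    rw [Finset.filter_insert, Function.update_self]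
    by_cases hc : c0 = c
    · subst hc
      rw [if_pos rfl, Finset.prod_insert (fun h => ha (Finset.mem_filter.1 h).1), hsame,
        Nat.cast_mul, sq]
      exact mul_le_mul (h2 a (Finset.mem_insert_self _ _)) hc0 (Nat.cast_nonneg _) (by linarith)
    · rw [if_neg hc, hsame]
      exact hf c

/-- the decomposition of a modulus into a bounded number of factors -/
theorem dec (H : Finset (ℤ × ℤ)) (N : ℕ) (hN : 0 < N) : ∃ (K : ℕ) (h : Fin K → ℤ × ℤ)
    (G : Finset (Fin K)), (∀ j, h j ∈ H) ∧ ∀ (z : ℝ) (d l : ℕ), 1 ≤ z → Squarefree d →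
      (d : ℝ) ≤ z ^ N → (d : ℤ) ∣ ∏ h ∈ H, (h.1 * (l : ℤ) + h.2) →
      ∃ q : Fin K → ℕ, Pr q = d ∧ (∀ j, 1 ≤ q j) ∧ Cd h q l ∧
        ((∏ j ∈ G, q j : ℕ) : ℝ) ≤ (rough z d : ℝ) ∧ ∀ j ∉ G, (q j : ℝ) ≤ z ^ 2 := by
  classical
  let e0 := Fintype.equivFin ({h // h ∈ H} × Option (Fin N))
  refine ⟨Fintype.card ({h // h ∈ H} × Option (Fin N)), fun j => ((e0.symm j).1 : ℤ × ℤ),
    Finset.univ.filter (fun j => (e0.symm j).2 = none), fun j => (e0.symm j).1.2, ?_⟩
  intro z d l hz hsq hd hdvd
  have hd0 : d ≠ 0 := hsq.ne_zero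
  -- labels
  have hlab : ∀ p ∈ d.primeFactors, ∃ h : {h // h ∈ H}, (p : ℤ) ∣ h.1.1 * (l : ℤ) + h.1.2 := by
    intro p hp
    have hp1 : (p : ℤ) ∣ ∏ h ∈ H, (h.1 * (l : ℤ) + h.2) :=
      (Int.natCast_dvd_natCast.2 (Nat.dvd_of_mem_primeFactors hp)).trans hdvd
    obtain ⟨h, hh, hh2⟩ := (Prime.dvd_finsetProd_iff
      (Nat.prime_iff_prime_int.1 (Nat.prime_of_mem_primeFactors hp)) _).1 hp1
    exact ⟨⟨h, hh⟩, hh2⟩
  -- bins
  obtain ⟨f, hf⟩ := bins (N := N) hz (d.primeFactors.filter (fun p : ℕ => ¬ z < (p : ℝ)))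
    (fun p hp => (Nat.prime_of_mem_primeFactors (Finset.mem_filter.1 hp).1).one_le)
    (fun p hp => not_lt.1 (Finset.mem_filter.1 hp).2) (by
      refine le_trans ?_ hd
      have h1 : ∏ p ∈ d.primeFactors.filter (fun p : ℕ => ¬ z < (p : ℝ)), p ≤
          ∏ p ∈ d.primeFactors, p :=
        Finset.prod_le_prod_of_subset_of_one_le' (Finset.filter_subset _ _)
          (fun p hp _ => (Nat.prime_of_mem_primeFactors hp).one_le)
      rw [Nat.prod_primeFactors_of_squarefree hsq] at h1
      exact_mod_cast h1) hN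
  rcases isEmpty_or_nonempty {h // h ∈ H} with hE | ⟨⟨hx⟩⟩
  · -- no forms: `d = 1`
    have hd1 : d.primeFactors = ∅ := by
      rw [Finset.eq_empty_iff_forall_notMem]
      intro p hp
      obtain ⟨h, -⟩ := hlab p hp
      exact hE.elim h
    have hd2 : d = 1 := by
      rw [← Nat.prod_primeFactors_of_squarefree hsq, hd1, Finset.prod_empty]
    refine ⟨fun _ => 1, ?_, fun _ => le_rfl, fun j => ?_, ?_, fun j _ => ?_⟩
    · rw [hd2]
      simp [Pr]
    · simp
    · simp only [Finset.prod_const_one, Nat.cast_one]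
      have : 1 ≤ rough z d := by
        unfold rough
        exact Finset.one_le_prod' (fun p hp =>
          (Nat.prime_of_mem_primeFactors (Finset.mem_filter.1 hp).1).one_le)
      exact_mod_cast this
    · simp only [Nat.cast_one]
      nlinarith
  · have : Inhabited {h // h ∈ H} := ⟨hx⟩
    choose! lab hlab using hlab
    let g : ℕ → Fin (Fintype.card ({h // h ∈ H} × Option (Fin N))) := fun p =>
      e0 (lab p, if z < (p : ℝ) then none else some (f p))
    have hg1 : ∀ p, (e0.symm (g p)).1 = lab p := by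
      intro p
      simp only [g, Equiv.symm_apply_apply]
    have hg2 : ∀ p : ℕ, (e0.symm (g p)).2 = if z < (p : ℝ) then none else some (f p) := by
      intro p
      simp only [g, Equiv.symm_apply_apply]
    refine ⟨fun j => ∏ p ∈ d.primeFactors.filter (fun p => g p = j), p, ?_, ?_, ?_, ?_, ?_⟩
    · unfold Pr
      rw [Finset.prod_fiberwise d.primeFactors g (fun p => p)]
      exact Nat.prod_primeFactors_of_squarefree hsq
    · intro j
      exact Finset.one_le_prod' (fun p hp =>
        (Nat.prime_of_mem_primeFactors (Finset.mem_filter.1 hp).1).one_le)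
    · intro j
      rw [Int.natCast_dvd]
      refine Finset.prod_primes_dvd _
        (fun p hp => (Nat.prime_of_mem_primeFactors (Finset.mem_filter.1 hp).1).prime)
        (fun p hp => ?_)
      obtain ⟨hp1, hp2⟩ := Finset.mem_filter.1 hp
      rw [← Int.natCast_dvd]
      have h1 := hlab p hp1
      have h2 : (e0.symm j).1 = lab p := by rw [← hp2, hg1]
      rw [← h2] at h1
      exact h1
    · have h1 : ∏ j ∈ Finset.univ.filter (fun j => (e0.symm j).2 = none),
          ∏ p ∈ d.primeFactors.filter (fun p => g p = j), p = rough z d := by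
        unfold rough
        rw [← Finset.prod_fiberwise_of_maps_to
          (s := d.primeFactors.filter (fun p : ℕ => z < (p : ℝ)))
          (t := Finset.univ.filter (fun j => (e0.symm j).2 = none)) (g := g)]
        · refine Finset.prod_congr rfl fun j hj => Finset.prod_congr ?_ fun _ _ => rfl
          rw [Finset.filter_filter]
          refine Finset.filter_congr fun p _ => ⟨fun hp => ⟨?_, hp⟩, fun hp => hp.2⟩
          by_contra hcon
          have h2 := (Finset.mem_filter.1 hj).2
          rw [← hp, hg2, if_neg hcon] at h2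
          exact absurd h2 (by simp)
        · intro p hp
          refine Finset.mem_filter.2 ⟨Finset.mem_univ _, ?_⟩
          rw [hg2, if_pos (Finset.mem_filter.1 hp).2]
      rw [h1]
    · intro j hj
      have h1 : (e0.symm j).2 ≠ none := fun h => hj (Finset.mem_filter.2 ⟨Finset.mem_univ _, h⟩)
      obtain ⟨c, hc⟩ := Option.ne_none_iff_exists'.1 h1
      refine le_trans ?_ (hf c)
      have h2 : ∏ p ∈ d.primeFactors.filter (fun p => g p = j), p ≤
          ∏ p ∈ (d.primeFactors.filter (fun p : ℕ => ¬ z < (p : ℝ))).filter (fun p => f p = c), p := by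
        refine Finset.prod_le_prod_of_subset_of_one_le' ?_
          (fun p hp _ => (Nat.prime_of_mem_primeFactors
            (Finset.mem_filter.1 (Finset.mem_filter.1 hp).1).1).one_le)
        intro p hp
        obtain ⟨hp1, hp2⟩ := Finset.mem_filter.1 hp
        rw [← hp2, hg2] at hc
        by_cases hz2 : z < (p : ℝ)
        · rw [if_pos hz2] at hc
          exact absurd hc (by simp)
        · rw [if_neg hz2] at hc
          exact Finset.mem_filter.2 ⟨Finset.mem_filter.2 ⟨hp1, hz2⟩, Option.some.inj hc⟩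
      exact_mod_cast h2

end Pool.Agent.Y246.LD
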